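import Pool.Agent.Lib.MP_799fdf_al.Gen.Defs
import Pool.Agent.Lib.MP_799fdf_al.Gen.CP
import Pool.Agent.Lib.MP_799fdf_al.Cop.TY
import Pool.Agent.Lib.MP_799fdf_al.Cop.CPL

/-! # The data of the engine -/

set_option autoImplicit false

open scoped commutatorElement

namespace MP799fdf

namespace Gen

open Inn
open Cop (TT TA TY)

/-- the image of the local subgroup -/
def TB (G : Type) [Group G] (τ : TT G) : Subgroup (TA G τ) :=
  τ.1.1.map (QuotientGroup.mk' (cen τ.1.1 τ.1.2 τ.2.nN))

instance {G : Type} [Group G] (τ : TT G) : (TB G τ).Normal :=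
  τ.2.nR.map _ (QuotientGroup.mk'_surjective _)

/-- the outer part -/
abbrev TC (G : Type) [Group G] (τ : TT G) : Type := TA G τ ⧸ TB G τ

theorem exists_eng (G : Type) [Group G] [Finite G] (K : Type) [Group K] [Finite K] (h1 : CPs K)
    (h2 : TY G K) :
    Nonempty (Eng K {L : Subgroup K // ∃ N, Loc L N} (TT G) (TA G) (TC G)) := by
  classical
  choose N hN using fun i : {L : Subgroup K // ∃ N, Loc L N} => i.2
  choose t a ha hk hm using fun i : {L : Subgroup K // ∃ N, Loc L N} => h2 i.1 (N i) (hN i)
  have hker : ∀ i, (a i).ker = cen i.1 (N i) (hN i).nN := by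
    intro i
    ext x
    rw [MonoidHom.mem_ker]
    exact hk i x
  have hB : ∀ i, TB G (t i) = i.1.map (a i) := fun i => (hm i).symm
  have hind : ∀ i, Nat.card (TC G (t i)) = (i.1 ⊔ cen i.1 (N i) (hN i).nN).index := by
    intro i
    rw [← Subgroup.index_eq_card, hB, ← Subgroup.index_comap_of_surjective _ (ha i),
      Subgroup.comap_map_eq, hker]
  obtain ⟨n, hn⟩ := Cop.solv_quot (⨆ i : {L : Subgroup K // ∃ N, Loc L N}, i.1)
    (by
      have : ∀ i : {L : Subgroup K // ∃ N, Loc L N}, (i.1).Normal := fun i => (hN i).nR
      infer_instance)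
    (fun L M h => le_iSup (fun i : {L : Subgroup K // ∃ N, Loc L N} => i.1) ⟨L, M, h⟩)
  exact ⟨{ R := fun i => i.1
           t := t
           al := a
           u := fun τ => QuotientGroup.mk' (TB G τ)
           nR := fun i => (hN i).nR
           comm := fun i j hij x hx y hy =>
             Cop.loc_comm (hN i) (hN j) (h1 i.1 (N i) (hN i)).1 (h1 j.1 (N j) (hN j)).1
               (fun h => hij (Subtype.ext h)) x hx y hy
           surj := ha
           usurj := fun τ => QuotientGroup.mk'_surjective (TB G τ)
           mapR := fun i x => by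
             rw [QuotientGroup.mk'_apply, QuotientGroup.eq_one_iff, hB]
             exact Subgroup.mem_map
           ker := fun i x => by
             rw [hk i x]
             exact Cop.cen_iff (hN i) (h1 i.1 (N i) (hN i)).1 x
           cop := fun i z hz hz1 => by
             have h4 : z ∈ N i := loc_inf_cen (hN i) ⟨hz, (hk i z).1 hz1⟩
             have h5 : orderOf z ∣ Nat.card (N i) := by
               have := orderOf_dvd_natCard (⟨z, h4⟩ : N i)
               rwa [Subgroup.orderOf_mk] at this
             rw [hind]
             exact (h1 i.1 (N i) (hN i)).2.symm.coprime_dvd_left h5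
           n := n
           solv := hn }⟩

end Gen

end MP799fdf
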