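import Pool.Agent.Lib.MP_799fdf_al.Gen.CP
import Pool.Agent.Lib.MP_799fdf_al.Cop.CPM

/-! # The product of the local subgroups with N = 1 -/

set_option autoImplicit false

open scoped commutatorElement

namespace MP799fdf

namespace Gen

open Inn
open Cop (SB)

variable {K : Type} [Group K]

/-- PROOF. A local pair `(L, N)` of `K ⧸ SB K` lifts to `(L', N')` (`loc_lift`); `N' ≠ ⊥` since otherwise
`L' ≤ SB K` is mapped to `⊥`; `gd_lift`. -/
theorem sb_quot [Finite K] (hK : CP K) [(SB K).Normal] : CPs (K ⧸ SB K) := by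
  intro L N h
  have hf := QuotientGroup.mk'_surjective (SB K)
  obtain ⟨L', N', h', h1, h2⟩ := loc_lift (QuotientGroup.mk' (SB K)) hf h
  rcases hK L' N' h' with h3 | h3
  · exfalso
    subst h3
    have h4 : L' ≤ SB K :=
      le_iSup (fun L : {L : Subgroup K // Loc L ⊥} => L.1) ⟨L', h'⟩
    apply h.ne_bot
    rw [← h1, eq_bot_iff, Subgroup.map_le_iff_le_comap]
    intro x hx
    rw [Subgroup.mem_comap, Subgroup.mem_bot, QuotientGroup.mk'_apply,
      QuotientGroup.eq_one_iff]
    exact h4 hx
  · exact gd_lift (QuotientGroup.mk' (SB K)) hf h h' h1 h2 h3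

end Gen

end MP799fdf
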