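import Pool.Agent.Lib.MP_799fdf_al.Gen.CombP

/-! # All primes -/

set_option autoImplicit false

namespace MP799fdf

namespace Gen

/-- All primes. PROOF. Let `p` be a prime divisor of `m₀`, `m₀ = p ^ a * m'`, `p ∤ m'` (`Nat.exists_eq_pow_mul_and_not_dvd`).
`G_p = {x | p ^ a • x = 0}` (an `AddSubgroup`), `J = {i // ¬ p ∣ Nat.card (C i)}`, `F' s = ⟨m' • F s, _⟩`. For a
representation `h` of `F`, `h' j w = ⟨m' • h j w, _⟩`; for `i` not in `J` `m' • h i w = 0`: `N • h i w = 0` with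
`N` coprime to `p`, and `m₀ • h i w = 0`, so `gcd N m₀ • h i w = 0` (Bézout, e.g.
`addOrderOf_dvd_iff_nsmul_eq_zero`) and `gcd N m₀ ∣ m'`. `combP` gives `m' • F one = 0`. So `p` does not divide the
additive order of `F one`, for all primes `p ∣ m₀`; it divides `m₀`, so it is `1`. -/
theorem combK {K ι G : Type} [Group K] [Finite K] [Fintype ι] [AddCommGroup G] {n : ℕ} [NeZero n]
    (C : ι → Type) [∀ i, Group (C i)] [∀ i, Finite (C i)] (ρ : ∀ i, K →* C i)
    (hρ : ∀ i, Function.Surjective (ρ i)) (hn : ∀ i, Nat.card (C i) ≤ n)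
    (m₀ : ℕ) (hm₀ : m₀ ≠ 0) (hG : ∀ x : G, m₀ • x = 0) (F : Fx K (YY n (n - 1)) → G)
    (hF : ∀ L : Subgroup K, L.Normal → L.index ≤ n →
      ∃ h : ∀ i, (K × YY n (n - 1) → C i) → G, (∀ i w, Fac w L → h i w = 0) ∧
        (∀ i w, ∃ N : ℕ, N.Coprime (Nat.card (C i)) ∧ N • h i w = 0) ∧
        ∀ s, F s = ∑ i, h i fun x => ρ i (s.1 x)) : F Fx.one = 0 := by
  classical
  by_contra hne
  have hd0 : addOrderOf (F Fx.one) ∣ m₀ := addOrderOf_dvd_of_nsmul_eq_zero (hG _)
  have hd1 : addOrderOf (F Fx.one) ≠ 1 := by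
    rwa [Ne, AddMonoid.addOrderOf_eq_one_iff]
  obtain ⟨p, hp, hpd⟩ := Nat.exists_prime_and_dvd hd1
  obtain ⟨a, m', hpm, hm⟩ := Nat.exists_eq_pow_mul_and_not_dvd hm₀ p hp.ne_one
  have hkey : ∀ x : G, p ^ a • (m' • x) = 0 := fun x => by
    rw [← mul_nsmul', ← hm, hG]
  -- the elements of order prime to p
  have hz : ∀ (x : G) (N c : ℕ), N.Coprime c → p ∣ c → N • x = 0 → m' • x = 0 := by
    intro x N c hN hpc hx
    have h1 : addOrderOf x ∣ N := addOrderOf_dvd_of_nsmul_eq_zero hx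
    have h2 : addOrderOf x ∣ p ^ a * m' := by
      rw [← hm]
      exact addOrderOf_dvd_of_nsmul_eq_zero (hG x)
    have h3 : (addOrderOf x).Coprime (p ^ a) :=
      Nat.Coprime.pow_right a (Nat.Coprime.coprime_dvd_left h1 (Nat.Coprime.coprime_dvd_right hpc hN))
    exact addOrderOf_dvd_iff_nsmul_eq_zero.1 (h3.dvd_of_dvd_mul_left h2)
  have hmem : ∀ x : G, m' • x ∈ (nsmulAddMonoidHom (α := G) (p ^ a)).ker := fun x => by
    rw [AddMonoidHom.mem_ker]
    exact hkey x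
  have h0 := combP (ι := {i : ι // ¬ p ∣ Nat.card (C i)})
    (G := ((nsmulAddMonoidHom (α := G) (p ^ a)).ker : AddSubgroup G)) (n := n) p a hp
    (fun x => by
      apply Subtype.ext
      have h1 := x.2
      rw [AddMonoidHom.mem_ker] at h1
      rw [AddSubgroup.coe_nsmul]
      exact h1)
    (fun j => C j.1) (fun j => ρ j.1) (fun j => hρ j.1) (fun j => hn j.1) (fun j => j.2)
    (fun s => ⟨m' • F s, hmem _⟩) (by
      intro L hL hi
      obtain ⟨h, h1, h2, h3⟩ := hF L hL hi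
      refine ⟨fun j w => ⟨m' • h j.1 w, hmem _⟩, ?_, ?_⟩
      · intro j w hw
        apply Subtype.ext
        show m' • h j.1 w = 0
        rw [h1 j.1 w hw, nsmul_zero]
      · intro s
        apply Subtype.ext
        rw [AddSubgroup.val_finsetSum]
        show m' • F s = ∑ j : {i : ι // ¬ p ∣ Nat.card (C i)}, m' • h j.1 fun x => ρ j.1 (s.1 x)
        rw [h3 s, Finset.smul_sum,
          ← Fintype.sum_subtype_add_sum_subtype (fun i : ι => ¬ p ∣ Nat.card (C i))
            (fun i => m' • h i fun x => ρ i (s.1 x)), add_eq_left]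
        refine Finset.sum_eq_zero fun i _ => ?_
        obtain ⟨N, hN1, hN2⟩ := h2 i.1 fun x => ρ i.1 (s.1 x)
        exact hz _ N _ hN1 (not_not.1 i.2) hN2)
  have h1 : m' • F Fx.one = 0 := congrArg Subtype.val h0
  exact hpm (hpd.trans (addOrderOf_dvd_iff_nsmul_eq_zero.2 h1))

end Gen

end MP799fdf
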