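import Pool.Agent.Lib.MP_799fdf_al.Gen.RedA
import Pool.Agent.Lib.MP_799fdf_al.Gen.CombK
import Pool.Agent.Lib.MP_799fdf_al.Gen.CardZ
import Pool.Agent.Lib.MP_799fdf_al.Gen.Lab

/-! # Functions in all `M Z` -/

set_option autoImplicit false

open scoped commutatorElement

namespace MP799fdf

namespace Gen

/-- the number of parameters -/
noncomputable def bd (n k : ℕ) : ℕ := k * n ^ (n * Nat.card (YY n (n - 1))) + 2

namespace Eng

variable {K : Type} [Group K] [Finite K] {ι T : Type} {A C : T → Type} [∀ τ, Group (A τ)]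
  [∀ τ, Group (C τ)] (D : Eng K ι T A C) [Fintype ι] [DecidableEq ι] [Finite T]
  [∀ τ, Finite (C τ)]

/-- PROOF. `G = Additive D.ZZ`, `F e` = the element with `zi (F e) = f e` (from `exists_h` with `Z = ∅`), as in
`Cop/RedB.lean`. `combK` for `s ↦ F (s, none)`, `C i = C (t i)`, `ρ = D.rho` (surjective: `D.surj`, `D.usurj`),
`m₀ = |K|`. For `L` normal of index `≤ n` take `Z` from `exists_Z` (`Y = YY n (n - 1)`) and `h` from `exists_h` for
`Z`: `h' i w = h i (w, none)`; `no_label` (`W τ = K × Y → C τ`, `m ≥ 2`) gives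
`F (s, none) = ∑ i, h i (rho i ∘ s, none)`. `zi_inj`. -/
theorem inf_M {n m : ℕ} [NeZero n] (hn : ∀ τ, Nat.card (C τ) ≤ n) (hm : bd n (Nat.card T) ≤ m)
    (f : EE K (YY n (n - 1)) ι → K)
    (hf : ∀ Z : Finset (XX K (YY n (n - 1)) ι C), Z.card ≤ m → f ∈ D.M Z) :
    f (Fx.one, none) = 1 := by
  classical
  have hm2 : 2 ≤ m := le_trans (by unfold bd; omega) hm
  have hm1 : 1 ≤ m := by omega
  obtain ⟨h, -, -, hfe⟩ := D.exists_h hm1 f hf ∅ (by simp)
  set F : EE K (YY n (n - 1)) ι → Additive D.ZZ := fun e =>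
    Additive.ofMul (∏ i, h i (D.trD e i, lab e.2 i)) with hF
  have hrep : ∀ (h' : ∀ i, (K × YY n (n - 1) → C (D.t i)) × Option ι → D.ZZ),
      (∀ e, f e = D.zi (∏ i, h' i (D.trD e i, lab e.2 i))) →
      ∀ e, F e = ∑ i, Additive.ofMul (h' i (D.trD e i, lab e.2 i)) := by
    intro h' h3 e
    have h4 : ∏ i, h i (D.trD e i, lab e.2 i) = ∏ i, h' i (D.trD e i, lab e.2 i) := by
      apply D.zi_inj
      rw [← hfe e, ← h3 e]
    rw [hF]
    dsimp only
    rw [h4, ofMul_prod]
  have key := combK (G := Additive D.ZZ) (n := n) (fun i => C (D.t i)) D.rho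
    (fun i => (D.usurj (D.t i)).comp (D.surj i)) (fun i => hn (D.t i)) (Nat.card K)
    Nat.card_pos.ne' ?_ (fun s => F (s, none)) ?_
  · have h1 : ∏ i, h i (D.trD (Fx.one, none) i, lab none i) = 1 :=
      Additive.ofMul.injective key
    rw [hfe (Fx.one, none)]
    change D.zi (∏ i, h i (D.trD (Fx.one, none) i, lab none i)) = 1
    rw [h1, map_one]
  · intro x
    apply Additive.toMul.injective
    rw [toMul_nsmul, toMul_zero]
    apply D.zi_inj
    rw [map_pow, map_one]
    exact pow_card_eq_one'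
  · intro L hL hidx
    obtain ⟨Z, hZc, hZ⟩ := exists_Z (K := K) (Y := YY n (n - 1)) (ι := ι) C
      (Nat.one_le_iff_ne_zero.2 (NeZero.ne n)) hn L hidx
    obtain ⟨h', h1, h2, h3⟩ := D.exists_h hm1 f hf Z
      (hZc.trans (le_trans (by unfold bd; omega) hm))
    refine ⟨fun i w => Additive.ofMul (h' i (w, none)), fun i w hw => ?_, fun i w => ?_,
      fun s => ?_⟩
    · exact congrArg Additive.ofMul (h1 i (w, none) (hZ (D.t i) w hw))
    · obtain ⟨N, hN, hN1⟩ := h2 i (w, none)
      refine ⟨N, hN, ?_⟩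
      rw [← ofMul_pow, hN1, ofMul_one]
    · exact no_label (E₀ := Fx K (YY n (n - 1))) (fun τ => K × YY n (n - 1) → C τ) D.t
        (fun e i => D.trD (e, none) i) F m hm2 (fun _ => True)
        (fun Z' hZ' => by
          obtain ⟨h'', h4, -, h5⟩ := D.exists_h hm1 f hf Z' hZ'
          exact ⟨fun i x => Additive.ofMul (h'' i x),
            fun i x hx => congrArg Additive.ofMul (h4 i x hx), trivial, hrep h'' h5⟩)
        (fun i x => Additive.ofMul (h' i x)) (hrep h' h3) s

end Eng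

end Gen

end MP799fdf
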