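import Pool.Agent.Lib.MP_799fdf_al.Gen.BuildB
import Pool.Agent.Lib.MP_799fdf_al.Gen.EngFin
import Pool.Agent.Lib.MP_799fdf_al.Gen.CPM
import Pool.Agent.Lib.MP_799fdf_al.Gen.CPB

/-! # The bound -/

set_option autoImplicit false

open scoped commutatorElement

namespace MP799fdf

namespace Gen

open Inn
open Cop (TT TA TY ty_form SB sb_normal sb_inf)

/-- the bound -/
noncomputable def bnd (G : Type) [Group G] : ℕ :=
  Nat.card G ^ bd (Nat.card G) (Nat.card (TT G))

private theorem buildC_card (G : Type) [Group G] [Finite G] (τ : TT G) :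
    Nat.card (TA G τ) ≤ Nat.card G :=
  Nat.card_le_card_of_surjective _ (QuotientGroup.mk'_surjective (cen τ.1.1 τ.1.2 τ.2.nN))

/-- PROOF. `exists_eng` and `genM_eng` with `a = |G|`, `B = |G| + 1`. -/
theorem genM_cps (G : Type) [Group G] [Finite G] (K : Type) [Group K] [Finite K] (h1 : CPs K)
    (h2 : TY G K) :
    (genM (bnd G) K).mem K := by
  classical
  obtain ⟨D⟩ := exists_eng G K h1 h2
  have : Fintype {L : Subgroup K // ∃ N, Loc L N} := Fintype.ofFinite _
  have : NeZero (Nat.card G) := ⟨Nat.card_pos.ne'⟩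
  exact Eng.genM_eng D (a := Nat.card G) (n := Nat.card G) (buildC_card G) Nat.card_pos
    (fun τ => (Nat.card_le_card_of_surjective _ (QuotientGroup.mk'_surjective (TB G τ))).trans
      (buildC_card G τ))

private theorem buildC_bnd (G : Type) [Group G] [Finite G] : Nat.card G ≤ bnd G := by
  unfold bnd
  exact Nat.le_self_pow (by unfold bd; omega) _

private theorem buildC_rb (G : Type) [Group G] [Finite G] (K : Type) [Group K] [Finite K]
    (h2 : TY G K) (L : Subgroup K) (hL : Loc L ⊥) [(cen L ⊥ hL.nN).Normal] :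
    RB (bnd G) (K ⧸ cen L ⊥ hL.nN) := by
  obtain ⟨τ, a, ha, hk, -⟩ := h2 L ⊥ hL
  have hker : a.ker = cen L ⊥ hL.nN := by
    ext x
    rw [MonoidHom.mem_ker]
    exact hk x
  have hcard : Nat.card (K ⧸ cen L ⊥ hL.nN) = Nat.card (TA G τ) := by
    rw [← Subgroup.index_eq_card, ← hker]
    exact Nat.card_congr (QuotientGroup.quotientKerEquivOfSurjective a ha).toEquiv
  refine ⟨⊥, inferInstance, inferInstance, ?_⟩
  rw [Subgroup.index_bot, hcard]
  exact (buildC_card G τ).trans (buildC_bnd G)

/-- PROOF. `K` is a subdirect product of `K ⧸ SB K` and the `K ⧸ cen L ⊥` (`Loc L ⊥`): `sb_inf`,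
`Formation.of_family` over `Option {L // Loc L ⊥}` (or `mem_of_family` with `ev = id`). `K ⧸ SB K`: `genM_cps`
(`sb_quot`; `TY G` for it by `ty_form`, as `K ⧸ SB K ∈ form K ≤ form G`) and `genM_le`. `K ⧸ cen L ⊥` is isomorphic
to some `TA G τ` (`ty_form`), so it has order at most `|G|` and is `RB (|G| ^ ..)` with `S = ⊥`. -/
theorem genM_cp (G : Type) [Group G] [Finite G] (hG : CP G) (K : Type) [Group K] [Finite K]
    (hK : (form G).mem K) :
    (genM (bnd G) K).mem K := by
  have hS : (SB K).Normal := sb_normal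
  have hq : ∀ (M : Subgroup K) [M.Normal], (form K).mem (K ⧸ M) := fun M _ =>
    (form K).quot K M (mem_form K)
  let M : Option {L : Subgroup K // Loc L ⊥} → Subgroup K := fun o =>
    o.elim (SB K) fun L => cen L.1 ⊥ L.2.nN
  have hM : ∀ j, (M j).Normal := by
    intro j
    cases j with
    | none => exact hS
    | some L => exact cen_normal L.1 ⊥ L.2.nR L.2.nN
  refine mem_of_family (genM (bnd G) K) M ?_ (MonoidHom.id K) Function.surjective_id ?_
  · intro j
    cases j with
    | none =>
      have h1 : (form K).mem (K ⧸ SB K) := hq (SB K)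
      have h2 := genM_cps G (K ⧸ SB K) (sb_quot (cp_form hG K hK))
        (ty_form G _ (form_le (form G) hK _ h1))
      exact genM_le h1 _ h2
    | some L =>
      have := cen_normal L.1 ⊥ L.2.nR L.2.nN
      intro F hF
      exact hF (K ⧸ cen L.1 ⊥ L.2.nN) ⟨hq _, buildC_rb G K (ty_form G K hK) L.1 L.2⟩
  · intro x hx
    exact sb_inf x (hx none) fun L hL => hx (some ⟨L, hL⟩)

end Gen

end MP799fdf
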