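import Pool.Agent.Lib.MP_799fdf_al.Gen.KapB

/-! # One prime -/

set_option autoImplicit false

namespace MP799fdf

namespace Gen

/-- The lift of a substitution. PROOF. `σ : K ⧸ N → K` with `σ 1 = 1`, `mk (σ x) = x`;
`s (k, y) = k * σ ((k : K ⧸ N)⁻¹ * s̄ (k, y))`. If `s̄ (γ, y) = γ` then `s (k, y) = k` for `k` over `γ`. -/
theorem exists_lift {K Y : Type} [Group K] (N : Subgroup K) [N.Normal] [Nonempty Y] :
    ∃ φ : Fx (K ⧸ N) Y → Fx K Y, φ Fx.one = Fx.one ∧
      ∀ s k y, (((φ s).1 (k, y) : K) : K ⧸ N) = s.1 ((k : K ⧸ N), y) := by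
  classical
  let σ : K ⧸ N → K := fun x => if x = 1 then 1 else x.out
  have hσ1 : σ 1 = 1 := if_pos rfl
  have hσ : ∀ x : K ⧸ N, ((σ x : K) : K ⧸ N) = x := by
    intro x
    by_cases hx : x = 1
    · subst hx
      rw [hσ1]
      rfl
    · have h1 : σ x = x.out := if_neg hx
      rw [h1]
      exact QuotientGroup.out_eq' x
  refine ⟨fun s => ⟨fun x => x.1 * σ (((x.1 : K) : K ⧸ N)⁻¹ * s.1 ((x.1 : K ⧸ N), x.2)),
    fun k => ?_⟩, ?_, ?_⟩
  · obtain ⟨y, hy⟩ := s.2 (k : K ⧸ N)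
    refine ⟨y, ?_⟩
    show k * σ ((k : K ⧸ N)⁻¹ * s.1 ((k : K ⧸ N), y)) = k
    rw [hy, inv_mul_cancel, hσ1, mul_one]
  · refine Subtype.ext (funext fun x => ?_)
    show x.1 * σ ((x.1 : K ⧸ N)⁻¹ * (x.1 : K ⧸ N)) = x.1
    rw [inv_mul_cancel, hσ1, mul_one]
  · intro s k y
    show ((k * σ ((k : K ⧸ N)⁻¹ * s.1 ((k : K ⧸ N), y)) : K) : K ⧸ N) = s.1 ((k : K ⧸ N), y)
    rw [QuotientGroup.mk_mul, hσ, mul_inv_cancel_left]

/-- PROOF. If `p` divides the order there is an element of order `p` (`exists_prime_orderOf_dvd_card'`); it is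
represented by `x ∈ K`, not in the intersection, and `ρ i x` has order dividing `p` and dividing
`Nat.card (C i)`, so it is `1` for all `i`, a contradiction. -/
theorem not_dvd_quot {K ι : Type} [Group K] [Finite K] (p : ℕ) (hp : p.Prime) (C : ι → Type)
    [∀ i, Group (C i)] [∀ i, Finite (C i)] (ρ : ∀ i, K →* C i) (hpC : ∀ i, ¬ p ∣ Nat.card (C i))
    (N : Subgroup K) [N.Normal] (hN : N = ⨅ i, (ρ i).ker) : ¬ p ∣ Nat.card (K ⧸ N) := by
  intro hdvd
  have hfact : Fact p.Prime := ⟨hp⟩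
  obtain ⟨x, hx⟩ := exists_prime_orderOf_dvd_card' (G := K ⧸ N) p hdvd
  obtain ⟨k, rfl⟩ := QuotientGroup.mk_surjective x
  have hkp : k ^ p ∈ N := by
    have h1 : ((k : K ⧸ N)) ^ p = 1 := by
      rw [← hx]
      exact pow_orderOf_eq_one _
    rw [← QuotientGroup.mk_pow] at h1
    exact (QuotientGroup.eq_one_iff _).1 h1
  have hk : k ∈ N := by
    rw [hN, Subgroup.mem_iInf]
    intro i
    have h1 : (ρ i k) ^ p = 1 := by
      rw [← map_pow]
      rw [hN, Subgroup.mem_iInf] at hkp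
      exact (MonoidHom.mem_ker).1 (hkp i)
    have h2 : orderOf (ρ i k) ∣ p := orderOf_dvd_of_pow_eq_one h1
    have h3 : orderOf (ρ i k) ∣ Nat.card (C i) := orderOf_dvd_natCard _
    rcases (Nat.dvd_prime hp).1 h2 with h4 | h4
    · exact MonoidHom.mem_ker.2 (orderOf_eq_one_iff.1 h4)
    · rw [h4] at h3
      exact absurd h3 (hpC i)
  have h5 : (k : K ⧸ N) = 1 := (QuotientGroup.eq_one_iff _).2 hk
  rw [h5, orderOf_one] at hx
  exact hp.one_lt.ne hx

/-- One prime. PROOF. `N = ⨅ i, (ρ i).ker`, `Γ = K ⧸ N`, `p ∤ |Γ|` (`not_dvd_quot`), `R = ZMod (p ^ a)`,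
`Module R G` by `AddCommGroup.zmodModule`, `|Γ|` is a unit (`ZMod.isUnit_iff_coprime`). `g i : Γ → C i` from
`QuotientGroup.lift`, `Lg i` its kernel (index `≤ Nat.card (C i) ≤ n`: `ρ i` surjective, `Subgroup.index_ker`).
`F' s = F (φ s)` (`exists_lift`). `SR n g F'`: for `L : NS Γ n` take `Lb = L.comap mk` (same index:
`Subgroup.index_comap_of_surjective`), `h` from `hF`, `h' i w = h i (fun x => w (x.1, x.2))`. `core`. -/
theorem combP {K ι G : Type} [Group K] [Finite K] [Fintype ι] [AddCommGroup G] {n : ℕ} [NeZero n]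
    (p a : ℕ) (hp : p.Prime) (hG : ∀ x : G, p ^ a • x = 0) (C : ι → Type) [∀ i, Group (C i)]
    [∀ i, Finite (C i)] (ρ : ∀ i, K →* C i) (hρ : ∀ i, Function.Surjective (ρ i))
    (hn : ∀ i, Nat.card (C i) ≤ n) (hpC : ∀ i, ¬ p ∣ Nat.card (C i))
    (F : Fx K (YY n (n - 1)) → G)
    (hF : ∀ L : Subgroup K, L.Normal → L.index ≤ n →
      ∃ h : ∀ i, (K × YY n (n - 1) → C i) → G, (∀ i w, Fac w L → h i w = 0) ∧
        ∀ s, F s = ∑ i, h i fun x => ρ i (s.1 x)) : F Fx.one = 0 := by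
  classical
  have hNn : (⨅ i, (ρ i).ker : Subgroup K).Normal :=
    Subgroup.normal_iInf_normal fun i => inferInstance
  obtain ⟨N, hN⟩ : ∃ N : Subgroup K, N = ⨅ i, (ρ i).ker := ⟨_, rfl⟩
  have hNn' : N.Normal := hN ▸ hNn
  have hcard : ¬ p ∣ Nat.card (K ⧸ N) := not_dvd_quot p hp C ρ hpC N hN
  let hmod : Module (ZMod (p ^ a)) G := AddCommGroup.zmodModule hG
  have hR : IsUnit ((Nat.card (K ⧸ N) : ℕ) : ZMod (p ^ a)) := by
    rw [ZMod.isUnit_iff_coprime]
    exact Nat.Coprime.pow_right a ((Nat.Prime.coprime_iff_not_dvd hp).2 hcard).symm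
  have hNk : ∀ i, ∀ x ∈ N, ρ i x = 1 := by
    intro i x hx
    rw [hN, Subgroup.mem_iInf] at hx
    exact MonoidHom.mem_ker.1 (hx i)
  let g : ∀ i, K ⧸ N →* C i := fun i => QuotientGroup.lift N (ρ i) (hNk i)
  have hgmk : ∀ i (k : K), g i (k : K ⧸ N) = ρ i k := fun i k => QuotientGroup.lift_mk' N (hNk i) k
  obtain ⟨φ, hφ1, hφ⟩ := exists_lift (Y := YY n (n - 1)) N
  have hc := core (n := n) (G := G) hR (fun i => (g i : K ⧸ N → C i)) (fun i => (g i).ker)
    (fun i => inferInstance) (fun i => ?_) (fun i γ γ' h => ?_) (fun s => F (φ s)) ?_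
  · have hc' : F (φ Fx.one) = 0 := hc
    rwa [hφ1] at hc'
  · rw [Subgroup.index_ker]
    exact (Nat.card_le_card_of_injective (Subtype.val : (g i).range → C i)
      Subtype.val_injective).trans (hn i)
  · have h1 := MonoidHom.mem_ker.1 h
    rw [map_mul, map_inv] at h1
    exact (inv_mul_eq_one.1 h1)
  · intro L
    have hLn : L.1.Normal := L.2.1
    have hidx : (L.1.comap (QuotientGroup.mk' N)).index = L.1.index :=
      Subgroup.index_comap_of_surjective _ (QuotientGroup.mk'_surjective N)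
    obtain ⟨h, h1, h2⟩ := hF (L.1.comap (QuotientGroup.mk' N)) inferInstance
      (by rw [hidx]; exact L.2.2)
    refine ⟨fun i w => h i fun x => w ((x.1 : K ⧸ N), x.2), fun i w hw => ?_, fun s => ?_⟩
    · refine h1 i _ fun γ γ' y hγ => ?_
      refine hw _ _ y ?_
      have h3 := Subgroup.mem_comap.1 hγ
      rw [map_mul, map_inv] at h3
      exact h3
    · show F (φ s) = _
      rw [h2]
      refine Finset.sum_congr rfl fun i _ => ?_
      congr 1
      funext x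
      rw [← hgmk i]
      exact congrArg (g i) (hφ s x.1 x.2)

end Gen

end MP799fdf
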