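import Pool.Agent.Lib.MP_799fdf_al.Gen.BuildC
import Pool.Agent.Lib.MP_799fdf_al.Inn.IrrC

/-! # The theorem -/

set_option autoImplicit false

open scoped commutatorElement

namespace MP799fdf

namespace Gen

open Inn

/-- THE THEOREM. -/
theorem main (G : Type) [Group G] [Finite G] (hG : CP G) :
    {F : Formation | F.IsSub (form G)}.Finite := by
  obtain ⟨B, hB⟩ := genB_of_RB G (bnd G)
  refine finite_of_genB B fun K _ _ hK => ?_
  refine genM_cp G hG K hK (genB B K) fun H _ _ hH => ?_
  exact genB_le hH.1 H (hB H (form_le (form G) hK H hH.1) hH.2)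

end Gen

end MP799fdf
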