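import Pool.Agent.Lib.MP_799fdf_al.Gen.KapA

/-! # The core -/

set_option autoImplicit false

namespace MP799fdf

namespace Gen

variable {Γ : Type} [Group Γ] [Finite Γ] {n : ℕ} [NeZero n] {R G : Type} [CommRing R]
  [AddCommGroup G] [Module R G] {I : Type} [Fintype I] {C : I → Type}

/-- small representations -/
def SR (n : ℕ) (g : ∀ i, Γ → C i) {Y : Type} (F : Fx Γ Y → G) : Prop :=
  ∀ L : NS Γ n, ∃ h : ∀ i, (Γ × Y → C i) → G, (∀ i w, Fac w L.1 → h i w = 0) ∧
    ∀ s, F s = ∑ i, h i fun x => g i (s.1 x)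

/-- PROOF. `h' i w = h i (wstar w one)`; `fac_star`. -/
theorem sr_star (g : ∀ i, Γ → C i) {Y : Type} (F : Fx Γ (Y × Fin n) → G) (hF : SR n g F) :
    SR n g fun s : Fx Γ Y => F (Fx.star s (Fx.one : Fx Γ (Fin n))) := by
  intro L
  obtain ⟨h, h1, h2⟩ := hF L
  refine ⟨fun i w => h i (wstar w (Fx.one : Fx Γ (Fin n))), fun i w hw => ?_, fun s => ?_⟩
  · exact h1 i _ (fac_star w L.1 L.1 hw (Fx.one : Fx Γ (Fin n)) fun γ γ' _ hγ => hγ)
  · show F (Fx.star s (Fx.one : Fx Γ (Fin n))) = _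
    rw [h2]
    rfl

/-- PROOF. Let `h` be the representation of `F` for `L`. `nu c L (fun τ => F (star s τ))` is the sum over `i` of
`H i (g i ∘ s)` with `H i w = nu c L (fun τ => h i (wstar w τ))`. By `kap_zero` it is enough that `H i w = 0` if `w`
factors through a normal `L''` of index `≤ n - r`. If `¬ L'' ≤ L`: `nu_zero`, `inv_star`. If `L'' ≤ L` then
`L'' = L` (`L.index = n - r`), and by `nu_one` (if `s` is as there for some `M > L`, then it is also as there
with `L` instead of `M`, `fac_star`, and `h i (wstar w s) = 0`) `H i w = h i (wstar w one) = 0`. -/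
theorem kap_nu (hR : IsUnit ((Nat.card Γ : ℕ) : R))
    (c : ∀ L : NS Γ n, ((Γ ⧸ L.1 → Γ) → G) →ₗ[R] G) (hc : CcEq R G c) (g : ∀ i, Γ → C i)
    (Lg : I → Subgroup Γ) (hLg : ∀ i, (Lg i).Normal) (hLn : ∀ i, (Lg i).index ≤ n)
    (hg : ∀ i γ γ', γ⁻¹ * γ' ∈ Lg i → g i γ = g i γ') (r : ℕ) (hr : r + 1 < n)
    (F : Fx Γ (YY n (r + 1)) → G) (hF : SR n g F) (L : NS Γ n) (hL : L.1.index = n - r) :
    kap c r (fun s => nu c L fun τ => F (Fx.star s τ)) = 0 := by
  obtain ⟨h, h1, h2⟩ := hF L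
  have e1 : (fun s : Fx Γ (YY n r) => nu c L fun τ : Fx Γ (Fin n) => F (Fx.star s τ)) =
      ∑ i, (fun s : Fx Γ (YY n r) => (fun w : Γ × YY n r → C i =>
        nu c L fun τ : Fx Γ (Fin n) => h i (wstar w τ)) fun x => g i (s.1 x)) := by
    funext s
    rw [Finset.sum_apply, ← map_sum]
    congr 1
    funext τ
    rw [Finset.sum_apply, h2]
    rfl
  rw [e1, map_sum]
  refine Finset.sum_eq_zero fun i _ => ?_
  refine kap_zero hR c hc (g i) (Lg i) (hLg i) (hLn i) (hg i) r (by omega)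
    (fun w : Γ × YY n r → C i => nu c L fun τ : Fx Γ (Fin n) => h i (wstar w τ)) ?_
  intro w L'' hn'' hi'' hw
  show (nu c L fun τ : Fx Γ (Fin n) => h i (wstar w τ)) = 0
  by_cases hle : L'' ≤ L.1
  · have hLL : L'' = L.1 := by
      have hd := Subgroup.relIndex_mul_index hle
      have hpos : L.1.index ≠ 0 := Subgroup.index_ne_zero_of_finite
      have hpos2 : L''.index ≠ 0 := Subgroup.index_ne_zero_of_finite
      rw [← hL, ← hd] at hi''
      have h3 : L''.relIndex L.1 ≤ 1 := by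
        by_contra hcon
        have h4 : 2 ≤ L''.relIndex L.1 := by omega
        have h5 := Nat.mul_le_mul_right L.1.index h4
        omega
      have h4 : L''.relIndex L.1 ≠ 0 := by
        intro h0
        rw [h0, zero_mul] at hd
        exact hpos2 hd.symm
      have h5 : L''.relIndex L.1 = 1 := by omega
      exact le_antisymm hle (Subgroup.relIndex_eq_one.1 h5)
    subst hLL
    rw [nu_one hR c hc L (fun τ : Fx Γ (Fin n) => h i (wstar w τ)) (inv_star w L.1 hw (h i)) ?_]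
    · exact h1 i _ (fac_star w L.1 L.1 hw (Fx.one : Fx Γ (Fin n)) fun γ γ' _ hγ => hγ)
    · rintro s ⟨M, hLM, hs⟩
      exact h1 i _ (fac_star w L.1 L.1 hw s fun γ γ' y hγ => hs γ γ' y (hLM.le hγ))
  · exact nu_zero hR c hc L L'' hn'' hle _ (inv_star w L'' hw (h i))

/-- PROOF. Induction on `r`: `F one = F₁ one`, `F₁ s = F (star s one)` (`star one one = one`), `= kap c r F₁` by
induction (`sr_star`), and `kap c (r + 1) F = kap c r F₁ - ∑ L, kap c r (..)` (`kap_succ_apply`, linearity), where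
the terms of the sum vanish by `kap_nu`. -/
theorem total (hR : IsUnit ((Nat.card Γ : ℕ) : R))
    (c : ∀ L : NS Γ n, ((Γ ⧸ L.1 → Γ) → G) →ₗ[R] G) (hc : CcEq R G c) (g : ∀ i, Γ → C i)
    (Lg : I → Subgroup Γ) (hLg : ∀ i, (Lg i).Normal) (hLn : ∀ i, (Lg i).index ≤ n)
    (hg : ∀ i γ γ', γ⁻¹ * γ' ∈ Lg i → g i γ = g i γ') (r : ℕ) (hr : r < n)
    (F : Fx Γ (YY n r) → G) (hF : SR n g F) : F Fx.one = kap c r F := by
  induction r with
  | zero => exact (kap_zero_apply c F).symm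
  | succ r ih =>
    have ih' := ih (by omega) (fun s : Fx Γ (YY n r) => F (Fx.star s (Fx.one : Fx Γ (Fin n))))
      (sr_star g (Y := YY n r) F hF)
    have e1 : (F Fx.one : G) =
        (fun s : Fx Γ (YY n r) => F (Fx.star s (Fx.one : Fx Γ (Fin n)))) Fx.one := rfl
    refine (e1.trans ih').trans (Eq.symm ((kap_succ_apply c r F).trans ?_))
    have e2 : (fun s : Fx Γ (YY n r) => F (Fx.star s (Fx.one : Fx Γ (Fin n))) -
        ∑ L ∈ Finset.univ.filter (fun L : NS Γ n => L.1.index = n - r),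
          nu c L fun τ => F (Fx.star s τ)) =
        (fun s : Fx Γ (YY n r) => F (Fx.star s (Fx.one : Fx Γ (Fin n)))) -
        ∑ L ∈ Finset.univ.filter (fun L : NS Γ n => L.1.index = n - r),
          (fun s : Fx Γ (YY n r) => nu c L fun τ => F (Fx.star s τ)) := by
      funext s
      rw [Pi.sub_apply, Finset.sum_apply]
    have e3 : ∀ L ∈ Finset.univ.filter (fun L : NS Γ n => L.1.index = n - r),
        kap c r (fun s : Fx Γ (YY n r) => nu c L fun τ => F (Fx.star s τ)) = 0 :=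
      fun L hL => kap_nu hR c hc g Lg hLg hLn hg r hr F hF L (Finset.mem_filter.1 hL).2
    refine (congrArg (kap c r) e2).trans ?_
    rw [map_sub, map_sum, Finset.sum_eq_zero e3, sub_zero]

/-- THE CORE. PROOF. `exists_cc`, `total` with `r = n - 1`, the representation `h` of `F` for `L = ⊤`, linearity
and `kap_zero`: a normal subgroup of index `≤ n - (n - 1) = 1` is `⊤`. -/
theorem core (hR : IsUnit ((Nat.card Γ : ℕ) : R)) (g : ∀ i, Γ → C i)
    (Lg : I → Subgroup Γ) (hLg : ∀ i, (Lg i).Normal) (hLn : ∀ i, (Lg i).index ≤ n)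
    (hg : ∀ i γ γ', γ⁻¹ * γ' ∈ Lg i → g i γ = g i γ') (F : Fx Γ (YY n (n - 1)) → G)
    (hF : SR n g F) : F Fx.one = 0 := by
  have hn : n ≠ 0 := NeZero.ne n
  obtain ⟨c, hc⟩ := exists_cc (Γ := Γ) (n := n) R G
  rw [total hR c hc g Lg hLg hLn hg (n - 1) (by omega) F hF]
  have hT : (⊤ : Subgroup Γ).Normal ∧ (⊤ : Subgroup Γ).index ≤ n :=
    ⟨inferInstance, by rw [Subgroup.index_top]; omega⟩
  obtain ⟨h, h1, h2⟩ := hF ⟨⊤, hT⟩
  have e1 : F = ∑ i, (fun s : Fx Γ (YY n (n - 1)) => h i fun x => g i (s.1 x)) := by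
    funext s
    rw [Finset.sum_apply, h2]
  rw [e1, map_sum]
  refine Finset.sum_eq_zero fun i _ => ?_
  refine kap_zero hR c hc (g i) (Lg i) (hLg i) (hLn i) (hg i) (n - 1) (by omega) (h i) ?_
  intro w L'' hn'' hi'' hw
  have hpos : L''.index ≠ 0 := Subgroup.index_ne_zero_of_finite
  have h3 : L''.index = 1 := by omega
  rw [Subgroup.index_eq_one.1 h3] at hw
  exact h1 i w hw

end Gen

end MP799fdf
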