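import Pool.Agent.Lib.MP_799fdf_al.Gen.PHomA
import Pool.Agent.Lib.MP_799fdf_al.Inn.RBA

/-! # The normal subgroups `M Z` -/

set_option autoImplicit false

open scoped commutatorElement

namespace MP799fdf

namespace Gen

namespace Eng

variable {K : Type} [Group K] [Finite K] {ι T : Type} {A C : T → Type} [∀ τ, Group (A τ)]
  [∀ τ, Group (C τ)] (D : Eng K ι T A C) [Fintype ι] [DecidableEq ι] {Y : Type}

/-- PROOF. `al_P`. -/
theorem M_le (Z : Finset (XX K Y ι C)) : D.M Z ≤ (D.Pi Y) := by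
  rintro f ⟨r, ⟨g, hg⟩, hZ, hf⟩
  refine ⟨g, fun e i => ?_⟩
  rw [hf e, al_P]
  exact hg i _

/-- PROOF. Let `f ∈ Pi` with `g`, and `(r, g')` as in the definition of `M Z` for `f' ∈ M Z`. Choose for
all `i` and `a : A (t i)` an element `k i a` with `al i (k i a) = a` (`D.surj`). Define
`r' i w = k i (g ⟨t i, w⟩) * r i w * (k i (g ⟨t i, w⟩))⁻¹` (in `R i`, normal); it maps under `al i` to
`g * g' * g⁻¹`. `f e * P (..) * (f e)⁻¹ = P (..)` by `P_conj`: `k i a * r * (k i a)⁻¹ = f e * r * (f e)⁻¹` for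
`r ∈ R i`, `a = al i (f e)`, since `(f e)⁻¹ * k i a` commutes with `R i` (`D.ker`). -/
theorem M_normal (Z : Finset (XX K Y ι C)) : ((D.M Z).subgroupOf (D.Pi Y)).Normal := by
  refine ⟨fun f' hf' f => ?_⟩
  rw [Subgroup.mem_subgroupOf] at hf' ⊢
  obtain ⟨r, ⟨g', hg'⟩, hZ, hf'⟩ := hf'
  obtain ⟨g, hg⟩ := f.2
  choose k hk using fun i => D.surj i
  have hn : ∀ i, (D.R i).Normal := D.nR
  refine ⟨fun i w => ⟨k i (g ⟨D.t i, w⟩) * r i w * (k i (g ⟨D.t i, w⟩))⁻¹,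
    (hn i).conj_mem _ (r i w).2 _⟩, ⟨fun x => g x * g' x * (g x)⁻¹, fun i w => ?_⟩,
    fun i w h => ?_, fun e => ?_⟩
  · show D.al i (k i (g ⟨D.t i, w⟩) * r i w * (k i (g ⟨D.t i, w⟩))⁻¹) = _
    rw [map_mul, map_mul, map_inv, hk, hg']
  · apply Subtype.ext
    show k i (g ⟨D.t i, w⟩) * r i w * (k i (g ⟨D.t i, w⟩))⁻¹ = 1
    rw [hZ i w h, OneMemClass.coe_one, mul_one, mul_inv_cancel]
  · show (f : EE K Y ι → K) e * (f' : EE K Y ι → K) e *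
      ((f : EE K Y ι → K) e)⁻¹ = _
    rw [hf' e]
    symm
    apply P_conj
    intro i
    show k i (g ⟨D.t i, (D.trD e i, lab e.2 i)⟩) * r i (D.trD e i, lab e.2 i) *
      (k i (g ⟨D.t i, (D.trD e i, lab e.2 i)⟩))⁻¹ = _
    have h1 : D.al i (((f : EE K Y ι → K) e)⁻¹ *
        k i (g ⟨D.t i, (D.trD e i, lab e.2 i)⟩)) = 1 := by
      rw [map_mul, map_inv, hk, hg e i]
      exact inv_mul_cancel _
    have h2 := (D.ker i _).1 h1 _ (r i (D.trD e i, lab e.2 i)).2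
    obtain ⟨F, hF⟩ : ∃ F, F = (f : EE K Y ι → K) e := ⟨_, rfl⟩
    obtain ⟨y, hy⟩ : ∃ y, y = k i (g ⟨D.t i, (D.trD e i, lab e.2 i)⟩) := ⟨_, rfl⟩
    obtain ⟨z, hz⟩ : ∃ z : K, z = r i (D.trD e i, lab e.2 i) := ⟨_, rfl⟩
    rw [← hF, ← hy, ← hz] at h2
    rw [← hF, ← hy, ← hz]
    have h3 : F⁻¹ * y * z = z * (F⁻¹ * y) := h2
    calc y * z * y⁻¹ = F * (F⁻¹ * y * z) * y⁻¹ := by group
      _ = F * (z * (F⁻¹ * y)) * y⁻¹ := by rw [h3]
      _ = F * z * F⁻¹ := by group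

/-- the subgroup of `Pi` of the `f` that are trivial over `Z` -/
def DZ (Z : Finset (XX K Y ι C)) : Subgroup (EE K Y ι → K) where
  carrier := {f | f ∈ (D.Pi Y) ∧ ∀ e i, D.ptD e i ∈ Z → D.al i (f e) = 1}
  one_mem' := ⟨(D.Pi Y).one_mem, fun _ i _ => (D.al i).map_one⟩
  mul_mem' := by
    rintro f f' ⟨h1, h2⟩ ⟨h3, h4⟩
    refine ⟨(D.Pi Y).mul_mem h1 h3, fun e i h => ?_⟩
    rw [Pi.mul_apply, map_mul, h2 e i h, h4 e i h, one_mul]
  inv_mem' := by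
    rintro f ⟨h1, h2⟩
    refine ⟨(D.Pi Y).inv_mem h1, fun e i h => ?_⟩
    rw [Pi.inv_apply, map_inv, h2 e i h, inv_one]

/-- PROOF. Conjugation: `al i (f e * f' e * (f e)⁻¹)`. -/
theorem DZ_normal (Z : Finset (XX K Y ι C)) : ((D.DZ Z).subgroupOf (D.Pi Y)).Normal := by
  refine ⟨fun f' hf' f => ?_⟩
  rw [Subgroup.mem_subgroupOf] at hf' ⊢
  refine ⟨(f * f' * f⁻¹).2, fun e i h => ?_⟩
  show D.al i ((f : EE K Y ι → K) e *
    (f' : EE K Y ι → K) e *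
    ((f : EE K Y ι → K) e)⁻¹) = 1
  rw [map_mul, map_mul, map_inv, hf'.2 e i h, mul_one, mul_inv_cancel]

end Eng

end Gen

end MP799fdf
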