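import Pool.Agent.Lib.MP_799fdf_al.Gen.CcB

/-! # The functionals `nu L` -/

set_option autoImplicit false

namespace MP799fdf

namespace Gen

variable {Γ : Type} [Group Γ] [Finite Γ] {n : ℕ} [NeZero n] {R G : Type} [CommRing R]
  [AddCommGroup G] [Module R G]

/-- PROOF. `Nat.card (Γ ⧸ L) = index ≤ n = Nat.card (Fin n)`; a surjection exists (`Nonempty`). -/
theorem exists_zet (L : NS Γ n) : ∃ z : Fin n → Γ ⧸ L.1, Function.Surjective z := by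
  classical
  have := Fintype.ofFinite (Γ ⧸ L.1)
  have h1 : Fintype.card (Γ ⧸ L.1) ≤ Fintype.card (Fin n) := by
    rw [Fintype.card_fin, ← Nat.card_eq_fintype_card]
    exact L.2.2
  obtain ⟨f⟩ := Function.Embedding.nonempty_of_card_le h1
  exact ⟨Function.invFun f, Function.invFun_surjective f.injective⟩

/-- a surjection -/
noncomputable def zet (L : NS Γ n) : Fin n → Γ ⧸ L.1 := (exists_zet L).choose

theorem zet_surj (L : NS Γ n) : Function.Surjective (zet L) := (exists_zet L).choose_spec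

/-- the substitution `(γ, y) ↦ γ * (θ γ)⁻¹ * θ (ζ y)` -/
noncomputable def tau (L : NS Γ n) (θ : Γ ⧸ L.1 → Γ) : Fx Γ (Fin n) :=
  ⟨fun x => x.1 * (θ (x.1 : Γ ⧸ L.1))⁻¹ * θ (zet L x.2), fun γ => by
    obtain ⟨y, hy⟩ := zet_surj L (γ : Γ ⧸ L.1)
    exact ⟨y, by
      show γ * (θ (γ : Γ ⧸ L.1))⁻¹ * θ (zet L y) = γ
      rw [hy, inv_mul_cancel_right]⟩⟩

/-- the functional `nu L` -/
noncomputable def nu (c : ∀ L : NS Γ n, ((Γ ⧸ L.1 → Γ) → G) →ₗ[R] G) (L : NS Γ n) :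
    (Fx Γ (Fin n) → G) →ₗ[R] G :=
  (c L).comp (LinearMap.pi fun f => (avg R (Γ ⧸ L.1 → L.1) G).comp (LinearMap.funLeft R G
    fun (l : Γ ⧸ L.1 → L.1) => tau L fun b => (f b)⁻¹ * b.out * (l b : Γ)))

theorem nu_apply (c : ∀ L : NS Γ n, ((Γ ⧸ L.1 → Γ) → G) →ₗ[R] G) (L : NS Γ n)
    (Ψ : Fx Γ (Fin n) → G) : nu c L Ψ = c L fun f => avg R (Γ ⧸ L.1 → L.1) G fun l =>
      Ψ (tau L fun b => (f b)⁻¹ * b.out * (l b : Γ)) := rfl

/-- `Ψ s` depends only on `s` modulo `U` -/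
def InvF {Y : Type} (U : Subgroup Γ) (Ψ : Fx Γ Y → G) : Prop :=
  ∀ s s' : Fx Γ Y, (∀ x, (s.1 x)⁻¹ * s'.1 x ∈ U) → Ψ s = Ψ s'

/-- PROOF. `H f = avg_l Ψ (tau (f⁻¹ * out * l))` is invariant under `L''` and under `L`, so under `L'' ⊔ L > L`
(`inv_sup`), which is in `NS Γ n`; `cc_inv`.
`L''`: if `θ' b = (θ b) * λ b`, `λ b ∈ L''`, then `tau θ' ≡ tau θ` modulo the normal subgroup `L''` pointwise. For
`f' = f * λ`: `f'⁻¹ * out * l = λ⁻¹ * (f⁻¹ * out * l) = (f⁻¹ * out * l) * λ'`, `λ' ∈ L''`.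
`L`: for `f' = f * m`: `f'⁻¹ * out * l = m⁻¹ * f⁻¹ * out * l = f⁻¹ * out * (m' * l)` with
`m' = (f⁻¹ * out)⁻¹ * m⁻¹ * (f⁻¹ * out) ∈ L`: substitute in the average (`avg_equiv`, `Equiv.mulLeft`). -/
theorem nu_zero (hR : IsUnit ((Nat.card Γ : ℕ) : R))
    (c : ∀ L : NS Γ n, ((Γ ⧸ L.1 → Γ) → G) →ₗ[R] G) (hc : CcEq R G c) (L : NS Γ n)
    (L'' : Subgroup Γ) (hL'' : L''.Normal) (h : ¬ L'' ≤ L.1) (Ψ : Fx Γ (Fin n) → G)
    (hΨ : InvF L'' Ψ) : nu c L Ψ = 0 := by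
  have hL : L.1.Normal := L.2.1
  have hle : L.1 ≤ L'' ⊔ L.1 := le_sup_right
  have hidx : (L'' ⊔ L.1).index ≤ n :=
    (Nat.le_of_dvd (Nat.pos_of_ne_zero Subgroup.index_ne_zero_of_finite)
      (Subgroup.index_dvd_of_le hle)).trans L.2.2
  have hnorm : (L'' ⊔ L.1).Normal := inferInstance
  have hlt : L < (⟨L'' ⊔ L.1, hnorm, hidx⟩ : NS Γ n) := by
    refine lt_of_le_not_ge hle fun h' => h ?_
    exact le_sup_left.trans (show L'' ⊔ L.1 ≤ L.1 from h')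
  rw [nu_apply]
  refine cc_inv hR c hc L ⟨L'' ⊔ L.1, hnorm, hidx⟩ hlt _ ?_
  refine inv_sup L'' L.1 hL'' _ ?_ ?_
  · intro f f' hff
    dsimp only
    congr 1
    funext l
    refine hΨ _ _ fun x => ?_
    have h1 : ∀ b, ((f b : Γ) : Γ ⧸ L'') = ((f' b : Γ) : Γ ⧸ L'') := fun b =>
      QuotientGroup.eq.2 (hff b)
    rw [← QuotientGroup.eq]
    simp only [tau, QuotientGroup.mk_mul, QuotientGroup.mk_inv, h1]
  · intro f f' hff
    dsimp only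
    refine avg_equiv (Equiv.mulLeft (fun b : Γ ⧸ L.1 =>
      (⟨(b.out : Γ)⁻¹ * (f' b * (f b)⁻¹) * b.out, ?_⟩ : L.1))) _ _ fun l => ?_
    · have h1 : f b * ((f b)⁻¹ * f' b) * (f b)⁻¹ ∈ L.1 := hL.conj_mem _ (hff b) _
      have h2 := hL.conj_mem _ h1 (b.out : Γ)⁻¹
      have h3 : (b.out : Γ)⁻¹ * (f b * ((f b)⁻¹ * f' b) * (f b)⁻¹) * ((b.out : Γ)⁻¹)⁻¹ =
          (b.out : Γ)⁻¹ * (f' b * (f b)⁻¹) * b.out := by group
      rw [h3] at h2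
      exact h2
    · congr 2
      funext b
      simp only [Equiv.coe_mulLeft, Pi.mul_apply, Subgroup.coe_mul]
      group

end Gen

end MP799fdf
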