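import Pool.Agent.Lib.MP_799fdf_al.Gen.PHomA
import Pool.Agent.Lib.MP_799fdf_al.Gen.PHomB

/-! # Functions in all `M Z` -/

set_option autoImplicit false

open scoped commutatorElement

namespace MP799fdf

namespace Gen

namespace Eng

variable {K : Type} [Group K] [Finite K] {ι T : Type} {A C : T → Type} [∀ τ, Group (A τ)]
  [∀ τ, Group (C τ)] (D : Eng K ι T A C) [Fintype ι] [DecidableEq ι] {Y : Type}
  [Finite T]

/-- PROOF. `Z = {ptD e i}`: `r i (..) = 1`, and `al i (f e) = al i (r i (..)) = 1` (`al_P`). -/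
theorem al_one {m : ℕ} (hm : 1 ≤ m) (f : EE K Y ι → K)
    (hf : ∀ Z : Finset (XX K Y ι C), Z.card ≤ m → f ∈ D.M Z) (e : EE K Y ι) (i : ι) :
    D.al i (f e) = 1 := by
  classical
  obtain ⟨r, ⟨g, hg⟩, h1, h2⟩ := hf {D.ptD e i} (by simpa using hm)
  rw [h2, D.al_P, h1 i (D.trD e i, lab e.2 i) (Finset.mem_singleton.2 rfl)]
  simp

/-- The representation by functions with values in the centres. PROOF. (as `exists_h` in `Cop/RedA.lean`)
`r` from `f ∈ M Z`. `al i (r i (trD e i, _)) = al i (f e) = 1` (`al_P`, `al_one`), so `r i (trD e i, _) ∈ CC`. Define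
`h i w = ⟨r i w, _⟩` if `al i (r i w) = 1` and `1` otherwise. `f e = P (..) = zi (∏ ..)` (`P_prod`).
`N` = the order of `r i w`, `D.cop`. -/
theorem exists_h {m : ℕ} (hm : 1 ≤ m) (f : EE K Y ι → K)
    (hf : ∀ Z : Finset (XX K Y ι C), Z.card ≤ m → f ∈ D.M Z)
    (Z : Finset (XX K Y ι C)) (hZ : Z.card ≤ m) :
    ∃ h : ∀ i, (K × Y → C (D.t i)) × Option ι → D.ZZ,
      (∀ i w, (⟨D.t i, w⟩ : XX K Y ι C) ∈ Z → h i w = 1) ∧
      (∀ i w, ∃ N : ℕ, N.Coprime (Nat.card (C (D.t i))) ∧ (h i w) ^ N = 1) ∧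
      ∀ e, f e = D.zi (∏ i, h i (D.trD e i, lab e.2 i)) := by
  classical
  obtain ⟨r, ⟨g, hg⟩, h1, h2⟩ := hf Z hZ
  let h : ∀ i, (K × Y → C (D.t i)) × Option ι → D.ZZ := fun i w =>
    if hh : D.al i (r i w) = 1 then
      (⟨(r i w : K), Subgroup.subset_closure ⟨i, (r i w).2, hh⟩⟩ : Subgroup.closure D.CC)
    else 1
  have hpos : ∀ i w, D.al i (r i w) = 1 → D.zi (h i w) = (r i w : K) := by
    intro i w hh
    have e1 : h i w =
        (⟨(r i w : K), Subgroup.subset_closure ⟨i, (r i w).2, hh⟩⟩ : Subgroup.closure D.CC) :=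
      dif_pos hh
    rw [e1]
    rfl
  have hneg : ∀ i w, ¬ D.al i (r i w) = 1 → h i w = 1 := fun i w hh => dif_neg hh
  refine ⟨h, fun i w hw => ?_, fun i w => ?_, fun e => ?_⟩
  · apply D.zi_inj
    have h3 : r i w = 1 := h1 i w hw
    rw [hpos i w (by rw [h3]; simp), h3, map_one]
    rfl
  · by_cases hh : D.al i (r i w) = 1
    · refine ⟨orderOf (r i w : K), D.cop i (r i w) (r i w).2 hh, ?_⟩
      apply D.zi_inj
      rw [map_pow, hpos i w hh, map_one, pow_orderOf_eq_one]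
    · refine ⟨1, Nat.coprime_one_left _, ?_⟩
      rw [hneg i w hh, one_pow]
  · rw [h2 e]
    apply D.P_prod
    intro i
    refine (hpos i _ ?_).symm
    rw [← D.al_P (fun j => r j (D.trD e j, lab e.2 j)) i, ← h2 e]
    exact D.al_one hm f hf e i

end Eng

end Gen

end MP799fdf
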